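import Mathlib

/-!
# OM, L2: the triangle function is positive definite
-/

set_option autoImplicit false

open MeasureTheory

namespace Pool.Agent.Helper16.OM

theorem tri_int (R : ℝ) (x y : ℝ) :
    ∫ s, (Set.Icc (-min x y) (R - max x y)).indicator (fun _ => (1 : ℝ)) s =
      max 0 (R - |x - y|) := by
  rw [integral_indicator measurableSet_Icc, setIntegral_const, smul_eq_mul, mul_one,
    Measure.real, Real.volume_Icc, ENNReal.toReal_ofReal']
  have h : R - max x y - -min x y = R - |x - y| := by
    rcases le_total x y with h | h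
    · rw [max_eq_right h, min_eq_left h, abs_of_nonpos (by linarith)]; ring
    · rw [max_eq_left h, min_eq_right h, abs_of_nonneg (by linarith)]; ring
  rw [h, max_comm]

theorem tri_pd (R : ℝ) (hR : 0 < R) (A : Finset ℝ) (f : ℝ → ℝ → ℝ)
    (hf : ∀ B : Finset ℝ, B ⊆ A → 0 ≤ ∑ x ∈ B, ∑ y ∈ B, f x y) :
    0 ≤ ∑ x ∈ A, ∑ y ∈ A, max 0 (R - |x - y|) * f x y := by
  classical
  have hint : ∀ x y : ℝ, Integrable
      (fun s => (Set.Icc (-min x y) (R - max x y)).indicator (fun _ => (1 : ℝ)) s * f x y) := by
    intro x y
    refine Integrable.mul_const ?_ _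
    rw [integrable_indicator_iff measurableSet_Icc]
    exact integrableOn_const (by rw [Real.volume_Icc]; exact ENNReal.ofReal_ne_top)
  have h1 : ∑ x ∈ A, ∑ y ∈ A, max 0 (R - |x - y|) * f x y =
      ∫ s, ∑ x ∈ A, ∑ y ∈ A,
        (Set.Icc (-min x y) (R - max x y)).indicator (fun _ => (1 : ℝ)) s * f x y := by
    rw [integral_finsetSum _ (fun x _ => integrable_finsetSum _ (fun y _ => hint x y))]
    refine Finset.sum_congr rfl (fun x _ => ?_)
    rw [integral_finsetSum _ (fun y _ => hint x y)]
    refine Finset.sum_congr rfl (fun y _ => ?_)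
    rw [integral_mul_const, tri_int]
  rw [h1]
  refine integral_nonneg (fun s => ?_)
  have h2 := hf (A.filter (fun x => s + x ∈ Set.Icc 0 R)) (Finset.filter_subset _ _)
  have h3 : ∑ x ∈ A, ∑ y ∈ A,
      (Set.Icc (-min x y) (R - max x y)).indicator (fun _ => (1 : ℝ)) s * f x y =
      ∑ x ∈ A.filter (fun x => s + x ∈ Set.Icc 0 R),
        ∑ y ∈ A.filter (fun x => s + x ∈ Set.Icc 0 R), f x y := by
    rw [Finset.sum_filter]
    refine Finset.sum_congr rfl (fun x _ => ?_)
    by_cases hx : s + x ∈ Set.Icc 0 R
    · rw [if_pos hx, Finset.sum_filter]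
      refine Finset.sum_congr rfl (fun y _ => ?_)
      by_cases hy : s + y ∈ Set.Icc 0 R
      · rw [if_pos hy, Set.indicator_of_mem, one_mul]
        obtain ⟨a1, a2⟩ := hx
        obtain ⟨b1, b2⟩ := hy
        constructor
        · rcases le_total x y with h | h
          · rw [min_eq_left h]; linarith
          · rw [min_eq_right h]; linarith
        · rcases le_total x y with h | h
          · rw [max_eq_right h]; linarith
          · rw [max_eq_left h]; linarith
      · rw [if_neg hy, Set.indicator_of_notMem, zero_mul]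
        rintro ⟨c1, c2⟩
        apply hy
        have d1 := min_le_right x y
        have d2 := le_max_right x y
        constructor <;> linarith
    · rw [if_neg hx]
      refine Finset.sum_eq_zero (fun y _ => ?_)
      rw [Set.indicator_of_notMem, zero_mul]
      rintro ⟨c1, c2⟩
      apply hx
      have d1 := min_le_left x y
      have d2 := le_max_left x y
      constructor <;> linarith
  change 0 ≤ ∑ x ∈ A, ∑ y ∈ A,
      (Set.Icc (-min x y) (R - max x y)).indicator (fun _ => (1 : ℝ)) s * f x y
  rw [h3]
  exact h2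

end Pool.Agent.Helper16.OM
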