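import Mathlib

/-! Leaf L12 (problem `MP_ad1693_nt`): comparison of orders of zeros. -/

namespace Pool.Agent.Helper16.OM

theorem ord_le {X Y U D : ℂ → ℂ} {z : ℂ} (hX : AnalyticAt ℂ X z) (hY : AnalyticAt ℂ Y z)
    (hU : AnalyticAt ℂ U z) (hD : AnalyticAt ℂ D z) (hU0 : U z ≠ 0)
    (hYt : analyticOrderAt Y z ≠ ⊤) (h : ∀ᶠ w in nhds z, X w * D w = U w * Y w) :
    analyticOrderNatAt X z ≤ analyticOrderNatAt Y z := by
  have h1 : analyticOrderAt (X * D) z = analyticOrderAt (U * Y) z :=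
    analyticOrderAt_congr h
  rw [analyticOrderAt_mul hX hD, analyticOrderAt_mul hU hY] at h1
  have h2 : analyticOrderAt U z = 0 := (hU.analyticOrderAt_eq_zero).2 hU0
  rw [h2, zero_add] at h1
  have h3 : analyticOrderAt X z ≤ analyticOrderAt Y z := by
    rw [← h1]; exact le_self_add
  unfold analyticOrderNatAt
  exact ENat.toNat_le_toNat h3 hYt

end Pool.Agent.Helper16.OM
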