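import Mathlib

/-!
# OM, L4: a lower bound for the Gamma function on the real axis
-/

set_option autoImplicit false

open MeasureTheory

namespace Pool.Agent.Helper16.OM

theorem gamma_real_lower' (σ : ℝ) (hσ : 0 < σ) :
    σ ^ σ * Real.exp (-σ) ≤ Real.Gamma (1 + σ) := by
  rw [Real.Gamma_eq_integral (by linarith)]
  have hint : IntegrableOn (fun x : ℝ => Real.exp (-x) * x ^ (1 + σ - 1)) (Set.Ioi 0) :=
    Real.GammaIntegral_convergent (by linarith)
  have hsub : Set.Ioi σ ⊆ Set.Ioi (0 : ℝ) := Set.Ioi_subset_Ioi hσ.le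
  have h1 : ∫ x in Set.Ioi σ, Real.exp (-x) * x ^ (1 + σ - 1) ≤
      ∫ x in Set.Ioi (0 : ℝ), Real.exp (-x) * x ^ (1 + σ - 1) := by
    refine setIntegral_mono_set hint ?_ (Filter.Eventually.of_forall hsub)
    refine (ae_restrict_iff' measurableSet_Ioi).2 (Filter.Eventually.of_forall ?_)
    intro x hx
    have hx' : (0 : ℝ) < x := hx
    exact mul_nonneg (Real.exp_pos _).le (Real.rpow_nonneg hx'.le _)
  have h2 : ∫ x in Set.Ioi σ, Real.exp (-x) * σ ^ σ ≤
      ∫ x in Set.Ioi σ, Real.exp (-x) * x ^ (1 + σ - 1) := by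
    refine setIntegral_mono_on ?_ (hint.mono_set hsub) measurableSet_Ioi ?_
    · exact (integrableOn_exp_neg_Ioi σ).mul_const _
    · intro x hx
      have hx' : σ < x := hx
      refine mul_le_mul_of_nonneg_left ?_ (Real.exp_pos _).le
      rw [show 1 + σ - 1 = σ by ring]
      exact Real.rpow_le_rpow hσ.le hx'.le hσ.le
  have h3 : ∫ x in Set.Ioi σ, Real.exp (-x) * σ ^ σ = σ ^ σ * Real.exp (-σ) := by
    rw [integral_mul_const, integral_exp_neg_Ioi, mul_comm]
  linarith

theorem gamma_real_lower (σ : ℝ) (hσ : 0 ≤ σ) :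
    σ * Real.log σ - σ ≤ Real.log (Real.Gamma (1 + σ)) := by
  rcases hσ.eq_or_lt with rfl | h
  · simp
  · have h1 := Real.log_le_log (by positivity) (gamma_real_lower' σ h)
    rw [Real.log_mul (by positivity) (by positivity), Real.log_rpow h, Real.log_exp] at h1
    linarith

end Pool.Agent.Helper16.OM
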